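import Mathlib

/-!
# Star isolation inside vertex subsets

`G` is a fixed graph, all graphs considered are the induced graphs `G[W]`, `W` a finite set of
vertices.  `G[W]` contains a star `K_{1,k}` iff some `x ∈ W` has a closed neighbourhood in `W` with
at least `k + 1` elements.
-/

namespace Pool.Agent.Lib.MP_aa4a89_co.Star

open Finset Classical

variable {V : Type*} (G : SimpleGraph V)

/-- Equal or adjacent. -/
def Rel (x y : V) : Prop := y = x ∨ G.Adj x y

/-- The closed neighbourhood of `x` inside `W`. -/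
noncomputable def nb (W : Finset V) (x : V) : Finset V := W.filter fun y => Rel G x y

/-- What is left of `W` after removing the closed neighbourhood of `D`. -/
noncomputable def rest (W D : Finset V) : Finset V := W.filter fun y => ∀ x ∈ D, ¬ Rel G x y

/-- `D` isolates `G[W]`: no star `K_{1,k}` is left. -/
def Isol (k : ℕ) (W D : Finset V) : Prop :=
  ∀ x ∈ rest G W D, (nb G (rest G W D) x).card ≤ k

/-- `G[W]` has an isolating set with at most `m` elements. -/
def S (k : ℕ) (W : Finset V) (m : ℕ) : Prop := ∃ D ⊆ W, D.card ≤ m ∧ Isol G k W D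

/-- `G[W]` is connected (or empty). -/
def Conn (W : Finset V) : Prop :=
  ∀ X ⊆ W, X.Nonempty → X ≠ W → ∃ x ∈ X, ∃ y ∈ W \ X, G.Adj x y

variable {G}

theorem Rel.refl (x : V) : Rel G x x := Or.inl rfl

theorem Rel.symm {x y : V} (h : Rel G x y) : Rel G y x := by
  rcases h with h | h
  · exact Or.inl h.symm
  · exact Or.inr h.symm

theorem rel_comm {x y : V} : Rel G x y ↔ Rel G y x := ⟨Rel.symm, Rel.symm⟩

theorem mem_nb {W : Finset V} {x y : V} : y ∈ nb G W x ↔ y ∈ W ∧ Rel G x y := by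
  simp [nb]

theorem mem_rest {W D : Finset V} {y : V} : y ∈ rest G W D ↔ y ∈ W ∧ ∀ x ∈ D, ¬ Rel G x y := by
  simp [rest]

theorem nb_subset (W : Finset V) (x : V) : nb G W x ⊆ W := filter_subset _ _

theorem rest_subset (W D : Finset V) : rest G W D ⊆ W := filter_subset _ _

theorem self_mem_nb {W : Finset V} {x : V} (hx : x ∈ W) : x ∈ nb G W x :=
  mem_nb.2 ⟨hx, Rel.refl x⟩

theorem nb_mono {W W' : Finset V} (h : W ⊆ W') (x : V) : nb G W x ⊆ nb G W' x := by
  intro y hy
  rw [mem_nb] at hy ⊢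
  exact ⟨h hy.1, hy.2⟩

theorem S.mono {k : ℕ} {W : Finset V} {m m' : ℕ} (h : S G k W m) (hm : m ≤ m') : S G k W m' := by
  obtain ⟨D, h1, h2, h3⟩ := h
  exact ⟨D, h1, h2.trans hm, h3⟩

/-- Removing a closed neighbourhood. -/
theorem rest_insert (W : Finset V) (x : V) (D : Finset V) :
    rest G W (insert x D) = rest G (W \ nb G W x) D := by
  ext y
  simp only [mem_rest, mem_insert, forall_eq_or_imp, mem_sdiff, mem_nb]
  tauto

theorem S_insert {k : ℕ} {W : Finset V} {x : V} (hx : x ∈ W) {m : ℕ}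
    (h : S G k (W \ nb G W x) m) : S G k W (m + 1) := by
  obtain ⟨D, h1, h2, h3⟩ := h
  refine ⟨insert x D, ?_, ?_, ?_⟩
  · intro y hy
    rcases mem_insert.1 hy with rfl | hy
    · exact hx
    · exact (mem_sdiff.1 (h1 hy)).1
  · exact (card_insert_le _ _).trans (by omega)
  · unfold Isol
    rw [rest_insert]
    exact h3

/-- The general upper bound `ι ≤ n / (k + 1)`. -/
theorem borg (k : ℕ) (W : Finset V) : S G k W (W.card / (k + 1)) := by
  induction hn : W.card using Nat.strong_induction_on generalizing W with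
  | _ n ih =>
    by_cases h : ∃ x ∈ W, k + 1 ≤ (nb G W x).card
    · obtain ⟨x, hx, hk⟩ := h
      have hc : (W \ nb G W x).card = n - (nb G W x).card := by
        rw [card_sdiff_of_subset (nb_subset W x), hn]
      have hle : (nb G W x).card ≤ n := hn ▸ card_le_card (nb_subset W x)
      have h1 := ih (W \ nb G W x).card (by omega) (W \ nb G W x) rfl
      refine (S_insert hx h1).mono ?_
      rw [hc]
      have h2 : (n - (nb G W x).card) / (k + 1) ≤ (n - (k + 1)) / (k + 1) :=
        Nat.div_le_div_right (by omega)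
      have h3 : n / (k + 1) = (n - (k + 1)) / (k + 1) + 1 := by
        rw [← Nat.add_div_right _ (by omega : 0 < k + 1)]
        congr 1
        omega
      omega
    · push Not at h
      refine ⟨∅, by simp, by simp, ?_⟩
      intro x hx
      have hxW : x ∈ W := rest_subset _ _ hx
      have := card_le_card (nb_mono (G := G) (rest_subset (G := G) W ∅) x)
      have := h x hxW
      omega

/-- Gluing: `D₀` first, then independent parts.  The parts are given as a finite family. -/
theorem glue {ι : Type*} (k : ℕ) {W D₀ : Finset V} (hD₀ : D₀ ⊆ W) (s : Finset ι) (A : ι → Finset V)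
    (m : ι → ℕ) (hA : ∀ i ∈ s, A i ⊆ W) (hS : ∀ i ∈ s, S G k (A i) (m i))
    (hcov : ∀ x ∈ rest G W D₀, ∃ i ∈ s, x ∈ A i)
    (hsep : ∀ i ∈ s, ∀ j ∈ s, i ≠ j → ∀ x ∈ rest G W D₀, ∀ y ∈ rest G W D₀, x ∈ A i → y ∈ A j →
      ¬ Rel G x y) :
    S G k W (D₀.card + ∑ i ∈ s, m i) := by
  choose! D h1 h2 h3 using hS
  refine ⟨D₀ ∪ s.biUnion D, ?_, ?_, ?_⟩
  · intro x hx
    rcases mem_union.1 hx with hx | hx
    · exact hD₀ hx
    · obtain ⟨i, hi, hxi⟩ := mem_biUnion.1 hx
      exact hA i hi (h1 i hi hxi)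
  · refine (card_union_le _ _).trans (add_le_add le_rfl ?_)
    exact card_biUnion_le.trans (sum_le_sum h2)
  · intro x hx
    rw [mem_rest] at hx
    have hx0 : x ∈ rest G W D₀ := mem_rest.2 ⟨hx.1, fun y hy => hx.2 y (mem_union_left _ hy)⟩
    obtain ⟨i, hi, hxi⟩ := hcov x hx0
    have hxr : x ∈ rest G (A i) (D i) := mem_rest.2 ⟨hxi, fun y hy => hx.2 y
      (mem_union_right _ (mem_biUnion.2 ⟨i, hi, hy⟩))⟩
    refine (card_le_card ?_).trans (h3 i hi x hxr)
    intro y hy
    rw [mem_nb, mem_rest] at hy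
    obtain ⟨⟨hyW, hyD⟩, hxy⟩ := hy
    have hy0 : y ∈ rest G W D₀ := mem_rest.2 ⟨hyW, fun z hz => hyD z (mem_union_left _ hz)⟩
    obtain ⟨j, hj, hyj⟩ := hcov y hy0
    have hij : j = i := by
      by_contra hne
      exact hsep i hi j hj (Ne.symm hne) x hx0 y hy0 hxi hyj hxy
    subst hij
    exact mem_nb.2 ⟨mem_rest.2 ⟨hyj, fun z hz => hyD z
      (mem_union_right _ (mem_biUnion.2 ⟨j, hj, hz⟩))⟩, hxy⟩

end Pool.Agent.Lib.MP_aa4a89_co.Star
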