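import Mathlib

/-!
# The combinatorial core: no connected perfect structure with three balls

`R x p` means that `p` lies in the closed neighbourhood of `x`.  `Far x y` means that the closed
neighbourhoods are disjoint.
-/

namespace Pool.Agent.Lib.MP_aa4a89_co.Star

variable {α : Type*}

/-- Disjoint closed neighbourhoods. -/
def Far (R : α → α → Prop) (x y : α) : Prop := ∀ p, R x p → ¬ R y p

/-- Same closed neighbourhood. -/
def Twin (R : α → α → Prop) (x y : α) : Prop := ∀ p, R x p ↔ R y p

theorem Far.symm {R : α → α → Prop} {x y : α} (h : Far R x y) : Far R y x :=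
  fun p h1 h2 => h p h2 h1

/-- Three full vertices whose closed neighbourhoods partition everything. -/
structure Line (R : α → α → Prop) (full : α → Prop) (x y z : α) : Prop where
  fx : full x
  fy : full y
  fz : full z
  xy : Far R x y
  xz : Far R x z
  yz : Far R y z
  cov : ∀ p, R x p ∨ R y p ∨ R z p

theorem Line.rot {R : α → α → Prop} {full : α → Prop} {x y z : α} (h : Line R full x y z) :
    Line R full z x y :=
  ⟨h.fz, h.fx, h.fy, h.xz.symm, h.yz.symm, h.xy, fun p => by
    rcases h.cov p with h | h | h <;> tauto⟩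

theorem Line.swap {R : α → α → Prop} {full : α → Prop} {x y z : α} (h : Line R full x y z) :
    Line R full x z y :=
  ⟨h.fx, h.fz, h.fy, h.xz, h.xy, h.yz.symm, fun p => by
    rcases h.cov p with h | h | h <;> tauto⟩

/-- The axioms. -/
structure Perf (R : α → α → Prop) (full : α → Prop) : Prop where
  refl : ∀ x, R x x
  symm : ∀ x y, R x y → R y x
  A1 : ∀ x y, ∃ z, full z ∧ Far R z x ∧ Far R z y
  A2 : ∀ x y z, full x → full y → full z → Far R x y → Far R x z → Far R y z →
    ∀ p, R x p ∨ R y p ∨ R z p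
  A3 : ∀ x y, full x → full y → (∀ p, R x p → R y p) → ∀ p, R y p → R x p

namespace Perf

variable {R : α → α → Prop} {full : α → Prop} (P : Perf R full)
include P

theorem not_rel {x y : α} (h : Far R x y) : ¬ R x y := fun h' => h y h' (P.refl y)

theorem line {u v : α} (hu : full u) (hv : full v) (h : Far R u v) :
    ∃ w, Line R full u v w := by
  obtain ⟨w, hw, h1, h2⟩ := P.A1 u v
  exact ⟨w, hu, hv, hw, h, h1.symm, h2.symm, P.A2 u v w hu hv hw h h1.symm h2.symm⟩

theorem pattern {u q z p : α} (hu : full u) (hq : ¬ R u q) (huz : Far R u z)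
    (hzq : Far R z q) (hp : full p) (hup : Far R u p) : R p q ↔ ¬ R p z := by
  obtain ⟨p', L⟩ := P.line hu hp hup
  constructor
  · intro h1 h2
    exact hzq p (P.symm _ _ h2) (P.symm _ _ h1)
  · intro h1
    rcases L.cov q with h | h | h
    · exact absurd h hq
    · exact h
    · rcases L.cov z with h' | h' | h'
      · exact absurd h' (P.not_rel huz)
      · exact absurd h' h1
      · exact absurd (P.symm _ _ h) (hzq p' (P.symm _ _ h'))

theorem twins {u v₁ v₂ : α} (hu : full u) (h1 : full v₁) (h2 : full v₂)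
    (hu1 : Far R u v₁) (hu2 : Far R u v₂)
    (h : ∀ p, full p → Far R u p → (R p v₁ ↔ R p v₂)) : Twin R v₁ v₂ := by
  intro p
  by_cases hp : R u p
  · have a := hu1 p hp
    have b := hu2 p hp
    tauto
  · obtain ⟨z, hz, hzu, hzp⟩ := P.A1 u p
    have a := P.pattern hu hp hzu.symm hzp h1 hu1
    have b := P.pattern hu hp hzu.symm hzp h2 hu2
    have c := h z hz hzu.symm
    have d : R v₁ z ↔ R z v₁ := ⟨P.symm _ _, P.symm _ _⟩
    have e : R v₂ z ↔ R z v₂ := ⟨P.symm _ _, P.symm _ _⟩
    tauto

theorem uniq {u q z₁ z₂ : α} (hu : full u) (hq : ¬ R u q) (h1 : full z₁) (h2 : full z₂)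
    (hu1 : Far R u z₁) (hu2 : Far R u z₂) (hq1 : Far R z₁ q) (hq2 : Far R z₂ q) :
    Twin R z₁ z₂ := by
  refine P.twins hu h1 h2 hu1 hu2 fun p hp hup => ?_
  have a := P.pattern hu hq hu1 hq1 hp hup
  have b := P.pattern hu hq hu2 hq2 hp hup
  tauto

theorem lemE {u q z v z' : α} (L : Line R full u z v) (hq : ¬ R u q) (hzq : Far R z q)
    (_hz' : full z') (hz'q : Far R z' q) (huz' : ¬ R u z') : Far R z' v := by
  obtain ⟨z'', hz'', hu'', h''⟩ := P.A1 u z'
  have key : Twin R z'' v := by
    refine P.twins L.fx hz'' L.fz hu''.symm L.xz fun p hp hup => ?_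
    have a := P.pattern L.fx huz' hu''.symm h'' hp hup
    have b := P.pattern L.fx hq L.xy hzq hp hup
    obtain ⟨p', L'⟩ := P.line L.fx hp hup
    have c : R p z' ↔ ¬ R p q := by
      constructor
      · intro h1 h2
        exact hz'q p (P.symm _ _ h1) (P.symm _ _ h2)
      · intro h1
        rcases L'.cov q with h | h | h
        · exact absurd h hq
        · exact absurd h h1
        · rcases L'.cov z' with h3 | h3 | h3
          · exact absurd h3 huz'
          · exact h3
          · exact absurd (P.symm _ _ h) (hz'q p' (P.symm _ _ h3))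
    have d : R p z ↔ ¬ R p v := by
      constructor
      · intro h1 h2
        exact L.yz p (P.symm _ _ h1) (P.symm _ _ h2)
      · intro h1
        rcases L.cov p with h | h | h
        · exact absurd h (P.not_rel hup)
        · exact P.symm _ _ h
        · exact absurd (P.symm _ _ h) h1
    tauto
  intro p h1 h2
  exact h'' p ((key p).2 h2) h1

theorem lemE' {u q z v y z' : α} (L : Line R full u z v) (L' : Line R full q z y)
    (hq : ¬ R u q) (hz' : full z') (hz'v : Far R z' v) (huz' : ¬ R u z') : Far R z' q := by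
  have h1 : R z z' := by
    rcases L.cov z' with h | h | h
    · exact absurd h huz'
    · exact h
    · exact absurd h (hz'v z' (P.refl z'))
  have h2 : ¬ R y z' := L'.yz z' h1
  have h3 : R y u := by
    rcases L'.cov u with h | h | h
    · exact absurd (P.symm _ _ h) hq
    · exact absurd (P.symm _ _ h) (P.not_rel L.xy)
    · exact h
  have h4 : ¬ R y v := fun h => L.xz y (P.symm _ _ h3) (P.symm _ _ h)
  exact P.lemE (u := y) (q := v) (z := z) (v := q) (z' := z') (L'.rot.swap) h4 L.yz hz' hz'v h2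

theorem stepA {u q : α} (hu : full u) (hq : ¬ R u q) (hf : ¬ Far R u q) :
    ∃ x, full x ∧ ¬ R u x ∧ ¬ Far R u x := by
  obtain ⟨z, hz, hzu, hzq⟩ := P.A1 u q
  obtain ⟨y, hy, hyq, hyz⟩ := P.A1 q z
  obtain ⟨x, Lx⟩ := P.line hz hy hyz.symm
  obtain ⟨v, Lv⟩ := P.line hu hz hzu.symm
  have hqz : ¬ R z q := P.not_rel hzq
  have h1 : R v q := by
    rcases Lv.cov q with h | h | h
    · exact absurd h hq
    · exact absurd h hqz
    · exact h
  have h2 : ¬ R v y := (P.pattern hz hqz hyz.symm hyq Lv.fz Lv.yz).1 h1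
  have h3 : R u y := by
    rcases Lv.cov y with h | h | h
    · exact h
    · exact absurd h (P.not_rel hyz.symm)
    · exact absurd h h2
  have h4 : ¬ R x u := fun h => Lx.yz u (P.symm _ _ h3) h
  refine ⟨x, Lx.fz, fun h => h4 (P.symm _ _ h), fun hux => hf ?_⟩
  -- if `x` were far from `u`, then `x` and `v` would be twins
  have h5 : Twin R x v := by
    intro p
    constructor
    · intro h
      rcases Lv.cov p with h' | h' | h'
      · exact absurd h (hux p h')
      · exact absurd h (Lx.xz p h')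
      · exact h'
    · intro h
      rcases P.A2 u z x hu hz Lx.fz Lv.xy hux Lx.xz p with h' | h' | h'
      · exact absurd h (Lv.xz p h')
      · exact absurd h (Lv.yz p h')
      · exact h'
  have h6 : ∀ p, R y p → R u p := by
    intro p h
    rcases Lv.cov p with h' | h' | h'
    · exact h'
    · exact absurd h (hyz.symm p h')
    · exact absurd ((h5 p).2 h') (Lx.yz p h)
  have h7 := P.A3 y u hy hu h6
  exact fun p hp => hyq p (h7 p hp)

theorem s4 {u q z v v₂ z₂ : α} (hqf : full q) (hq : ¬ R u q) (hf : ¬ Far R u q)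
    (hzq : Far R z q) (L : Line R full u z v) (L₂ : Line R full u z₂ v₂)
    (hne : ¬ Twin R v v₂) (hv : R v v₂) : False := by
  obtain ⟨y, Ly⟩ := P.line hqf L.fy hzq.symm
  obtain ⟨m, hm, hmq, hmz⟩ := P.A1 q z₂
  obtain ⟨m', hm', hmq', hmv'⟩ := P.A1 q v₂
  -- `m` and `m'` lie in the closed neighbourhood of `u`
  have hum : R u m := by
    by_contra h
    have h1 := P.lemE L hq hzq hm hmq h
    have h2 := P.uniq L.fx h L.fz L₂.fy L.xz L₂.xy h1.symm hmz.symm
    exact L₂.yz v₂ ((h2 v₂).1 hv) (P.refl v₂)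
  have hum' : R u m' := by
    by_contra h
    have h1 := P.lemE L hq hzq hm' hmq' h
    exact hne (P.uniq L.fx h L.fz L₂.fz L.xz L₂.xz h1.symm hmv'.symm)
  obtain ⟨n, Ln⟩ := P.line L₂.fy hm hmz.symm
  obtain ⟨n', Ln'⟩ := P.line L₂.fz hm' hmv'.symm
  have hun : ¬ R u n := fun h => Ln.yz u (P.symm _ _ hum) (P.symm _ _ h)
  have hun' : ¬ R u n' := fun h => Ln'.yz u (P.symm _ _ hum') (P.symm _ _ h)
  have hfar : Far R n' n :=
    P.lemE' (u := u) (q := n) (z := z₂) (v := v₂) (y := m) (z' := n') L₂
      Ln.rot hun Ln'.fz Ln'.xz.symm hun'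
  -- a vertex of the closed neighbourhood of `u` outside that of `y`
  have hp : ∃ p, R u p ∧ ¬ R y p := by
    by_contra hcon
    push Not at hcon
    have h7 := P.A3 u y L.fx Ly.fz hcon
    exact hf fun p hp => Ly.xz.symm p (hcon p hp)
  obtain ⟨p, hup, hyp⟩ := hp
  have hqp : R q p := by
    rcases Ly.cov p with h | h | h
    · exact h
    · exact absurd h (L.xy p hup)
    · exact absurd h hyp
  have hn : R n p := by
    rcases Ln.cov p with h | h | h
    · exact absurd h (L₂.xy p hup)
    · exact absurd hqp (hmq p h)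
    · exact h
  have hn' : R n' p := by
    rcases Ln'.cov p with h | h | h
    · exact absurd h (L₂.xz p hup)
    · exact absurd hqp (hmq' p h)
    · exact h
  exact hfar p hn' hn

/-- The core lemma. -/
theorem core (A4 : ∀ z, full z → ∃ q, ¬ R z q ∧ ¬ Far R z q) [Nonempty α] : False := by
  obtain ⟨a⟩ := ‹Nonempty α›
  obtain ⟨u, hu, -, -⟩ := P.A1 a a
  obtain ⟨q₀, h1, h2⟩ := A4 u hu
  obtain ⟨q, hq, hnq, hfq⟩ := P.stepA hu h1 h2
  obtain ⟨z, hz, hzu, hzq⟩ := P.A1 u q
  obtain ⟨q₁, h3, h4⟩ := A4 z hz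
  obtain ⟨t, ht, hzt, hft⟩ := P.stepA hz h3 h4
  obtain ⟨z₀, hz₀, hz₀z, hz₀t⟩ := P.A1 z t
  obtain ⟨v₀, L₀⟩ := P.line hz hz₀ hz₀z.symm
  -- a vertex far from `z` which is a twin of neither `z₀` nor `v₀`
  have key : ∃ a, full a ∧ Far R z a ∧ ¬ Twin R z₀ a ∧ ¬ Twin R v₀ a := by
    by_contra hcon
    push Not at hcon
    have hu' := hcon u hu hzu
    have hq' := hcon q hq hzq
    have tw : ∀ x, Twin R x u → Twin R x q → False := by
      intro x h5 h6
      exact hnq (((h5 q).symm.trans (h6 q)).2 (P.refl q))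
    have fr : ∀ x y, Far R x y → Twin R x u → Twin R y q → False := by
      intro x y h7 h5 h6
      exact hfq fun p hp hp' => h7 p ((h5 p).2 hp) ((h6 p).2 hp')
    by_cases h5 : Twin R z₀ u
    · by_cases h6 : Twin R z₀ q
      · exact tw _ h5 h6
      · exact fr _ _ L₀.yz h5 (hq' h6)
    · have h5' := hu' h5
      by_cases h6 : Twin R z₀ q
      · exact fr _ _ L₀.yz.symm h5' h6
      · exact tw _ h5' (hq' h6)
  obtain ⟨a, ha, hza, hta, hta'⟩ := key
  obtain ⟨b, Lb⟩ := P.line hz ha hza
  rcases Lb.cov v₀ with h | h | h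
  · exact P.not_rel L₀.xz h
  · -- `v₀` adjacent to `a`
    exact P.s4 ht hzt hft hz₀t L₀ Lb.swap hta' (P.symm _ _ h)
  · -- `v₀` adjacent to `b`
    refine P.s4 ht hzt hft hz₀t L₀ Lb (fun htb => hta ?_) (P.symm _ _ h)
    intro p
    constructor
    · intro h'
      rcases Lb.cov p with h8 | h8 | h8
      · exact absurd h' (L₀.xy p h8)
      · exact h8
      · exact absurd ((htb p).2 h8) (L₀.yz p h')
    · intro h'
      rcases L₀.cov p with h8 | h8 | h8
      · exact absurd h' (hza p h8)
      · exact h8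
      · exact absurd ((htb p).1 h8) (Lb.yz p h')

end Perf

end Pool.Agent.Lib.MP_aa4a89_co.Star
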