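import Pool.Agent.Lib.MP_aa4a89_co.Star.Main
import Pool.Agent.Lib.MP_aa4a89_co.Defs

/-!
# Translation to the isolation number and to `c`
-/

namespace Pool.Agent.Lib.MP_aa4a89_co.Star

open Finset Classical

variable {V : Type*} {G : SimpleGraph V}

/-- The star `K_{1,k}`. -/
abbrev star (k : ℕ) : SimpleGraph (Fin 1 ⊕ Fin k) := completeBipartiteGraph (Fin 1) (Fin k)

theorem isIsolating_of_isol [Fintype V] {k : ℕ} {D : Finset V} (h : Isol G k univ D) :
    IsIsolating G (star k) D := by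
  rintro ⟨f⟩
  have hmem : ∀ a, (f a).1 ∈ rest G univ D := by
    intro a
    rw [mem_rest]
    refine ⟨mem_univ _, fun x hx hrel => (f a).2 ?_⟩
    rcases hrel with hrel | hrel
    · exact Or.inl (hrel ▸ hx)
    · exact Or.inr ⟨x, hx, hrel⟩
  have h1 := h _ (hmem (Sum.inl 0))
  have h2 : (univ.image fun i : Fin k => (f (Sum.inr i)).1) ⊆
      (nb G (rest G univ D) (f (Sum.inl 0)).1).erase (f (Sum.inl 0)).1 := by
    intro y hy
    obtain ⟨i, -, rfl⟩ := mem_image.1 hy
    have hadj : (star k).Adj (Sum.inl 0) (Sum.inr i) := by simp [star]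
    have hadj' := f.toHom.map_adj hadj
    have hadj'' : G.Adj (f (Sum.inl 0)).1 (f (Sum.inr i)).1 := hadj'
    exact mem_erase.2 ⟨hadj''.ne', mem_nb.2 ⟨hmem _, Or.inr hadj''⟩⟩
  have h3 := card_le_card h2
  rw [card_erase_of_mem (self_mem_nb (hmem _)), card_image_of_injective] at h3
  · simp only [card_univ, Fintype.card_fin] at h3
    have h4 : 0 < (nb G (rest G univ D) (f (Sum.inl 0)).1).card :=
      card_pos.2 ⟨_, self_mem_nb (hmem _)⟩
    omega
  · intro i j hij
    have := f.injective (Subtype.ext hij)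
    simpa using this

theorem isolationNumber_le_of_S [Fintype V] {k m : ℕ} (h : S G k univ m) :
    isolationNumber G (star k) ≤ m := by
  obtain ⟨D, -, h2, h3⟩ := h
  have h4 : D.card ∈ {m | ∃ D : Finset V, D.card = m ∧ IsIsolating G (star k) D} :=
    ⟨D, rfl, isIsolating_of_isol h3⟩
  exact (Nat.sInf_le h4).trans h2

theorem conn_univ [Fintype V] (h : G.Connected) : Conn G univ := by
  intro X _ hne hX
  obtain ⟨x, hx⟩ := hne
  obtain ⟨y, hy⟩ : ∃ y, y ∉ X := by
    by_contra hcon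
    push Not at hcon
    exact hX (eq_univ_iff_forall.2 hcon)
  obtain ⟨p⟩ := h.preconnected x y
  obtain ⟨a, b, hab, ha, hb⟩ : ∃ a b, G.Adj a b ∧ a ∈ X ∧ b ∉ X := by
    induction p with
    | nil => exact absurd hx hy
    | @cons u v w huv p ih =>
      by_cases hv : v ∈ X
      · exact ih hv hy
      · exact ⟨u, v, huv, hx, hv⟩
  exact ⟨a, ha, b, mem_sdiff.2 ⟨mem_univ _, hb⟩, hab⟩

/-- Upper bound for the isolation number of stars in a connected graph. -/
theorem isolationNumber_le [Fintype V] {k : ℕ} (hk : 1 ≤ k) (hG : G.Connected)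
    (h1 : Fintype.card V ≠ k + 1) (h2 : Fintype.card V ≠ 2 * (k + 1)) :
    (isolationNumber G (star k) : ℝ) * (k + 1 + 1 / (6 * k ^ 3 + 3 * k)) ≤ Fintype.card V := by
  obtain ⟨m, hS, hm⟩ := main hk (univ : Finset V) (conn_univ hG) (by simpa using h1)
    (by simpa using h2)
  have h3 := isolationNumber_le_of_S hS
  rw [card_univ] at hm
  have hL : (Lam k : ℝ) = 6 * (k : ℝ) ^ 3 + 3 * k := by
    simp [Lam]
  have hLpos : (0 : ℝ) < 6 * (k : ℝ) ^ 3 + 3 * k := by positivity
  have hm' : ((Lam k : ℝ) * (k + 1) + 1) * m ≤ Lam k * Fintype.card V := by exact_mod_cast hm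
  rw [hL] at hm'
  have h3' : (isolationNumber G (star k) : ℝ) ≤ m := by exact_mod_cast h3
  calc (isolationNumber G (star k) : ℝ) * (k + 1 + 1 / (6 * k ^ 3 + 3 * k))
      ≤ m * (k + 1 + 1 / (6 * k ^ 3 + 3 * k)) := by
        apply mul_le_mul_of_nonneg_right h3'
        positivity
    _ = ((6 * (k : ℝ) ^ 3 + 3 * k) * (k + 1) + 1) * m / (6 * (k : ℝ) ^ 3 + 3 * k) := by
        field_simp
    _ ≤ Fintype.card V := by
        rw [div_le_iff₀ hLpos]
        linarith

theorem c_le_of_forall {k n : ℕ} {x : ℝ} (hx : 0 ≤ x)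
    (h : ∀ G : SimpleGraph (Fin n), G.Connected → (isolationNumber G (star k) : ℝ) / n ≤ x) :
    c (star k) n ≤ x := by
  refine Real.sSup_le ?_ hx
  rintro y ⟨G, hG, rfl⟩
  exact h G hG

theorem c_le {k : ℕ} (hk : 1 ≤ k) {n : ℕ} (h1 : n ≠ k + 1) (h2 : n ≠ 2 * (k + 1)) :
    c (star k) n ≤ 1 / (k + 1 + 1 / (6 * k ^ 3 + 3 * k)) := by
  refine c_le_of_forall (by positivity) fun G hG => ?_
  have h3 := isolationNumber_le hk hG (by simpa using h1) (by simpa using h2)
  rw [Fintype.card_fin] at h3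
  have hn : 0 < n := by
    rcases Nat.eq_zero_or_pos n with rfl | hn
    · obtain ⟨i⟩ := hG.nonempty
      exact i.elim0
    · exact hn
  have hn' : (0 : ℝ) < n := by exact_mod_cast hn
  rw [div_le_div_iff₀ hn' (by positivity)]
  linarith

theorem c_le_mul {k : ℕ} (hk : 1 ≤ k) {t : ℕ} (ht : 3 ≤ t) :
    c (star k) (t * (k + 1)) ≤ (t - 1) / (t * (k + 1)) := by
  have ht' : (3 : ℝ) ≤ t := by exact_mod_cast ht
  refine c_le_of_forall (div_nonneg (by linarith) (by positivity)) fun G hG => ?_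
  have hne : ∀ s : ℕ, s < t → t * (k + 1) ≠ s * (k + 1) := by
    intro s hs heq
    have := Nat.eq_of_mul_eq_mul_right (by omega) heq
    omega
  have h3 := isolationNumber_le hk hG (by simpa using hne 1 (by omega))
    (by simpa using hne 2 (by omega))
  rw [Fintype.card_fin] at h3
  push_cast at h3 ⊢
  have h4 : isolationNumber G (star k) < t := by
    by_contra hcon
    push Not at hcon
    have h5 : (t : ℝ) ≤ isolationNumber G (star k) := by exact_mod_cast hcon
    have h6 : (0 : ℝ) < 1 / (6 * (k : ℝ) ^ 3 + 3 * k) := by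
      have : (1 : ℝ) ≤ k := by exact_mod_cast hk
      positivity
    have h7 : (t : ℝ) * (k + 1 + 1 / (6 * k ^ 3 + 3 * k)) ≤
        (isolationNumber G (star k) : ℝ) * (k + 1 + 1 / (6 * k ^ 3 + 3 * k)) :=
      mul_le_mul_of_nonneg_right h5 (by positivity)
    have h8 : 0 < (t : ℝ) * (1 / (6 * (k : ℝ) ^ 3 + 3 * k)) := by positivity
    nlinarith
  have h5 : (isolationNumber G (star k) : ℝ) ≤ t - 1 := by
    have : isolationNumber G (star k) + 1 ≤ t := h4
    have : ((isolationNumber G (star k) : ℝ)) + 1 ≤ t := by exact_mod_cast this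
    linarith
  exact div_le_div_of_nonneg_right h5 (by positivity)

end Pool.Agent.Lib.MP_aa4a89_co.Star
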