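import Pool.Agent.Lib.MP_aa4a89_co.Star.Packing

/-!
# The bound for all connected graphs
-/

namespace Pool.Agent.Lib.MP_aa4a89_co.Star

open Finset Classical

variable {V : Type*} {G : SimpleGraph V}

/-- Decomposition into connected components. -/
theorem exists_components (W : Finset V) : ∃ 𝒞 : Finset (Finset V),
    (∀ C ∈ 𝒞, C.Nonempty ∧ C ⊆ W ∧ Conn G C) ∧ (∀ x ∈ W, ∃ C ∈ 𝒞, x ∈ C) ∧
    ∀ C ∈ 𝒞, ∀ C' ∈ 𝒞, C ≠ C' → ∀ x ∈ C, ∀ y ∈ C', ¬ Rel G x y := by
  induction hn : W.card using Nat.strong_induction_on generalizing W with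
  | _ n ih =>
    by_cases hW : W = ∅
    · subst hW
      exact ⟨∅, by simp, by simp, by simp⟩
    by_cases hc : Conn G W
    · exact ⟨{W}, by simpa using ⟨nonempty_iff_ne_empty.2 hW, hc⟩, by simp, by
        intro C hC C' hC' hne
        rw [mem_singleton] at hC hC'
        exact absurd (hC.trans hC'.symm) hne⟩
    · unfold Conn at hc
      push Not at hc
      obtain ⟨X, hX, hXne, hXW, hno⟩ := hc
      have hlt : X.card < W.card := card_lt_card (hX.ssubset_of_ne hXW)
      have hpos : 0 < X.card := card_pos.2 hXne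
      obtain ⟨𝒞₁, a1, a2, a3⟩ := ih X.card (by omega) X rfl
      obtain ⟨𝒞₂, b1, b2, b3⟩ := ih (W \ X).card (by
        rw [card_sdiff_of_subset hX]
        omega) (W \ X) rfl
      have cross : ∀ x ∈ X, ∀ y ∈ W \ X, ¬ Rel G x y := by
        intro x hx y hy hxy
        rcases hxy with h | h
        · exact (mem_sdiff.1 hy).2 (h ▸ hx)
        · exact hno x hx y hy h
      refine ⟨𝒞₁ ∪ 𝒞₂, ?_, ?_, ?_⟩
      · intro C hC
        rcases mem_union.1 hC with h | h
        · exact ⟨(a1 C h).1, (a1 C h).2.1.trans hX, (a1 C h).2.2⟩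
        · exact ⟨(b1 C h).1, (b1 C h).2.1.trans sdiff_subset, (b1 C h).2.2⟩
      · intro x hx
        by_cases hxX : x ∈ X
        · obtain ⟨C, hC, h⟩ := a2 x hxX
          exact ⟨C, mem_union_left _ hC, h⟩
        · obtain ⟨C, hC, h⟩ := b2 x (mem_sdiff.2 ⟨hx, hxX⟩)
          exact ⟨C, mem_union_right _ hC, h⟩
      · intro C hC C' hC' hne x hx y hy
        rcases mem_union.1 hC with h | h <;> rcases mem_union.1 hC' with h' | h'
        · exact a3 C h C' h' hne x hx y hy
        · exact cross x ((a1 C h).2.1 hx) y ((b1 C' h').2.1 hy)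
        · exact fun hxy => cross y ((a1 C' h').2.1 hy) x ((b1 C h).2.1 hx) hxy.symm
        · exact b3 C h C' h' hne x hx y hy

theorem main {k : ℕ} (hk : 1 ≤ k) (W : Finset V) (hc : Conn G W)
    (h1 : W.card ≠ k + 1) (h2 : W.card ≠ 2 * (k + 1)) :
    ∃ m, S G k W m ∧ (Lam k * (k + 1) + 1) * m ≤ Lam k * W.card := by
  induction hn : W.card using Nat.strong_induction_on generalizing W with
  | _ n ih =>
    by_cases hΔ : ∀ x ∈ W, (nb G W x).card ≤ k + 1
    · rw [← hn]
      exact packing hk hc hΔ h1 h2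
    push Not at hΔ
    obtain ⟨u, hu, hua⟩ := hΔ
    obtain ⟨a, ha⟩ : ∃ a, (nb G W u).card = k + 1 + (a + 1) := ⟨(nb G W u).card - (k + 2), by omega⟩
    obtain ⟨𝒞, c1, c2, c3⟩ := exists_components (G := G) (W \ nb G W u)
    let 𝓑 : Finset (Finset V) := 𝒞.filter fun C => C.card = k + 1 ∨ C.card = 2 * (k + 1)
    let 𝓝 : Finset (Finset V) := 𝒞.filter fun C => ¬ (C.card = k + 1 ∨ C.card = 2 * (k + 1))
    have cdisj : ∀ C ∈ 𝒞, ∀ C' ∈ 𝒞, C ≠ C' → Disjoint C C' := by
      intro C hC C' hC' hne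
      rw [Finset.disjoint_left]
      intro x hx hx'
      exact c3 C hC C' hC' hne x hx x hx' (Rel.refl x)
    -- attach every component
    have hatt : ∀ C ∈ 𝒞, ∃ y ∈ (nb G W u).erase u, ∃ x ∈ C, G.Adj x y := by
      intro C hC
      obtain ⟨d1, d2, -⟩ := c1 C hC
      have d2' : C ⊆ W := d2.trans sdiff_subset
      obtain ⟨x, hx, y, hy, hxy⟩ := hc C d2' d1 (by
        rintro rfl
        exact (mem_sdiff.1 (d2 hu)).2 (self_mem_nb hu))
      rw [mem_sdiff] at hy
      have hyu : y ∈ nb G W u := by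
        by_contra hyu
        obtain ⟨C', hC', hyC'⟩ := c2 y (mem_sdiff.2 ⟨hy.1, hyu⟩)
        have hne : C ≠ C' := by
          rintro rfl
          exact hy.2 hyC'
        exact c3 C hC C' hC' hne x hx y hyC' (Or.inr hxy)
      refine ⟨y, mem_erase.2 ⟨?_, hyu⟩, x, hx, hxy⟩
      rintro rfl
      have hxW := mem_sdiff.1 (d2 hx)
      exact hxW.2 (mem_nb.2 ⟨hxW.1, Or.inr hxy.symm⟩)
    have hVne : Nonempty V := ⟨u⟩
    choose! f hf1 hf2 using hatt
    choose! g hg1 hg2 using hf2
    let X : Finset V := 𝓑.image f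
    have hXsub : X ⊆ (nb G W u).erase u := by
      intro y hy
      obtain ⟨C, hC, rfl⟩ := mem_image.1 hy
      exact hf1 C (mem_of_mem_filter _ hC)
    have hXcard1 : X.card ≤ 𝓑.card := card_image_le
    have hXcard2 : X.card ≤ k + (a + 1) := by
      have := card_le_card hXsub
      rw [card_erase_of_mem (self_mem_nb hu), ha] at this
      omega
    -- induction hypothesis
    have hIH : ∀ C ∈ 𝓝, ∃ m, S G k C m ∧ (Lam k * (k + 1) + 1) * m ≤ Lam k * C.card := by
      intro C hC
      simp only [𝓝, mem_filter] at hC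
      push Not at hC
      obtain ⟨d1, d2, d3⟩ := c1 C hC.1
      have hlt : C.card < n := by
        rw [← hn]
        have e1 := card_le_card d2
        rw [card_sdiff_of_subset (nb_subset _ _), ha] at e1
        have e2 := card_le_card (nb_subset (G := G) W u)
        rw [ha] at e2
        omega
      exact ih C.card hlt C d3 hC.2.1 hC.2.2 rfl
    choose! m hm1 hm2 using hIH
    have hB : ∀ C ∈ 𝓑, S G k (rest G C X) (C.card / (k + 1) - 1) := by
      intro C hC
      have hC' := mem_filter.1 hC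
      refine (borg k (rest G C X)).mono ?_
      have e1 : (rest G C X).card < C.card := by
        apply card_lt_card
        refine (rest_subset _ _).ssubset_of_ne ?_
        intro heq
        have e2 : g C ∈ rest G C X := by
          rw [heq]
          exact hg1 C hC'.1
        rw [mem_rest] at e2
        exact e2.2 (f C) (mem_image_of_mem f hC) (Or.inr (hg2 C hC'.1).symm)
      rcases hC'.2 with e | e
      · rw [e, Nat.div_self (by omega), Nat.div_eq_of_lt (by omega)]
      · rw [e, Nat.mul_div_cancel _ (by omega)]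
        have : (rest G C X).card / (k + 1) < 2 := by
          rw [Nat.div_lt_iff_lt_mul (by omega)]
          omega
        omega
    have hS : S G k W ((insert u X).card + ∑ C ∈ 𝒞,
        (if C ∈ 𝓑 then C.card / (k + 1) - 1 else m C)) := by
      apply glue k (D₀ := insert u X) ?_ 𝒞 (fun C => if C ∈ 𝓑 then rest G C X else C)
      · intro C hC
        split_ifs
        · exact (rest_subset _ _).trans ((c1 C hC).2.1.trans sdiff_subset)
        · exact (c1 C hC).2.1.trans sdiff_subset
      · intro C hC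
        split_ifs with hCB
        · exact hB C hCB
        · exact hm1 C (mem_filter.2 ⟨hC, fun h => hCB (mem_filter.2 ⟨hC, h⟩)⟩)
      · intro x hx
        rw [mem_rest] at hx
        have hxu : ¬ Rel G u x := hx.2 u (mem_insert_self _ _)
        obtain ⟨C, hC, hxC⟩ := c2 x (mem_sdiff.2 ⟨hx.1, fun h => hxu (mem_nb.1 h).2⟩)
        refine ⟨C, hC, ?_⟩
        split_ifs with hCB
        · exact mem_rest.2 ⟨hxC, fun y hy => hx.2 y (mem_insert_of_mem hy)⟩
        · exact hxC
      · intro C hC C' hC' hne x _ y _ hx hy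
        refine c3 C hC C' hC' hne x ?_ y ?_
        · split_ifs at hx
          · exact rest_subset _ _ hx
          · exact hx
        · split_ifs at hy
          · exact rest_subset _ _ hy
          · exact hy
      · intro y hy
        rcases mem_insert.1 hy with rfl | hy
        · exact hu
        · exact nb_subset _ _ (mem_of_mem_erase (hXsub hy))
    refine ⟨_, hS, ?_⟩
    -- arithmetic
    have huX : u ∉ X := fun h => (mem_erase.1 (hXsub h)).1 rfl
    rw [card_insert_of_notMem huX]
    have hsplit : ∀ φ : Finset V → ℕ, ∑ C ∈ 𝒞, φ C = ∑ C ∈ 𝓑, φ C + ∑ C ∈ 𝓝, φ C := by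
      intro φ
      exact (sum_filter_add_sum_filter_not 𝒞 _ φ).symm
    have hcardW : W.card = (k + 1 + (a + 1)) + (∑ C ∈ 𝓑, C.card + ∑ C ∈ 𝓝, C.card) := by
      rw [← hsplit, ← card_biUnion cdisj]
      have e1 : 𝒞.biUnion (fun C => C) = W \ nb G W u := by
        ext x
        rw [mem_biUnion]
        constructor
        · rintro ⟨C, hC, hx⟩
          exact (c1 C hC).2.1 hx
        · intro hx
          exact c2 x hx
      rw [e1, card_sdiff_of_subset (nb_subset _ _), ha]
      have e2 := card_le_card (nb_subset (G := G) W u)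
      rw [ha] at e2
      omega
    have hsumB : ∑ C ∈ 𝓑, C.card = (k + 1) * ∑ C ∈ 𝓑, C.card / (k + 1) := by
      rw [mul_sum]
      refine sum_congr rfl fun C hC => ?_
      rcases (mem_filter.1 hC).2 with e | e
      · rw [e, Nat.div_self (by omega), mul_one]
      · rw [e, Nat.mul_div_cancel _ (by omega), mul_comm]
    have hb12 : ∀ C ∈ 𝓑, 1 ≤ C.card / (k + 1) ∧ C.card / (k + 1) ≤ 2 := by
      intro C hC
      rcases (mem_filter.1 hC).2 with e | e
      · rw [e, Nat.div_self (by omega)]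
        omega
      · rw [e, Nat.mul_div_cancel _ (by omega)]
        omega
    have hsumm : ∑ C ∈ 𝒞, (if C ∈ 𝓑 then C.card / (k + 1) - 1 else m C) + 𝓑.card =
        ∑ C ∈ 𝓑, C.card / (k + 1) + ∑ C ∈ 𝓝, m C := by
      rw [hsplit]
      have e1 : ∑ C ∈ 𝓑, (if C ∈ 𝓑 then C.card / (k + 1) - 1 else m C) + 𝓑.card =
          ∑ C ∈ 𝓑, C.card / (k + 1) := by
        rw [card_eq_sum_ones, ← sum_add_distrib]
        refine sum_congr rfl fun C hC => ?_
        rw [if_pos hC]
        have := (hb12 C hC).1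
        omega
      have e2 : ∑ C ∈ 𝓝, (if C ∈ 𝓑 then C.card / (k + 1) - 1 else m C) = ∑ C ∈ 𝓝, m C := by
        refine sum_congr rfl fun C hC => ?_
        rw [if_neg]
        intro hCB
        exact (mem_filter.1 hC).2 (mem_filter.1 hCB).2
      omega
    have hB2 : ∑ C ∈ 𝓑, C.card / (k + 1) ≤ 2 * 𝓑.card := by
      rw [mul_comm, ← smul_eq_mul, ← sum_const]
      exact sum_le_sum fun C hC => (hb12 C hC).2
    have hNN : (Lam k * (k + 1) + 1) * ∑ C ∈ 𝓝, m C ≤ Lam k * ∑ C ∈ 𝓝, C.card := by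
      rw [mul_sum, mul_sum]
      exact sum_le_sum fun C hC => hm2 C hC
    rw [← hn, hcardW, hsumB]
    generalize ∑ C ∈ 𝓝, m C = M at *
    generalize ∑ C ∈ 𝓝, C.card = N at *
    generalize ∑ C ∈ 𝓑, C.card / (k + 1) = B at *
    generalize ∑ C ∈ 𝒞, (if C ∈ 𝓑 then C.card / (k + 1) - 1 else m C) = T at *
    generalize X.card = x at *
    generalize 𝓑.card = p at *
    have hL : 2 * k + 3 ≤ Lam k := by
      unfold Lam
      have : 1 ≤ k ^ 3 := Nat.one_le_pow _ _ hk
      omega
    generalize Lam k = Λ at *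
    obtain ⟨e, rfl⟩ : ∃ e, p = x + e := ⟨p - x, by omega⟩
    -- `T = B + M - x - e`
    have key : Λ * (k + 1) * (x + 1 + T) + (x + 1 + T) ≤
        Λ * (k + 1 + (a + 1) + ((k + 1) * B + N)) := by
      have k1 : Λ * (k + 1) * (x + 1 + T) + Λ * (k + 1) * e =
          Λ * (k + 1) * (1 + B) + Λ * (k + 1) * M := by
        rw [← mul_add, ← mul_add]
        congr 1
        omega
      have k2 : x + 1 + T + e = 1 + B + M := by omega
      have k3 : Λ * (k + 1) * M + M ≤ Λ * N := by
        calc Λ * (k + 1) * M + M = (Λ * (k + 1) + 1) * M := by ring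
          _ ≤ Λ * N := hNN
      have k4 : 2 * k + 2 * (a + 1) + 1 ≤ Λ * (a + 1) := by
        calc 2 * k + 2 * (a + 1) + 1 ≤ (2 * k + 3) * (a + 1) := by nlinarith
          _ ≤ Λ * (a + 1) := Nat.mul_le_mul_right _ hL
      have k5 : e ≤ Λ * (k + 1) * e := by
        have : 1 ≤ Λ * (k + 1) := Nat.mul_pos (by omega) (by omega)
        nlinarith
      have k6 : Λ * (k + 1 + (a + 1) + ((k + 1) * B + N)) =
          Λ * (k + 1) * (1 + B) + Λ * (a + 1) + Λ * N := by ring
      rw [k6]
      omega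
    calc (Λ * (k + 1) + 1) * (x + 1 + T) = Λ * (k + 1) * (x + 1 + T) + (x + 1 + T) := by ring
      _ ≤ _ := key

end Pool.Agent.Lib.MP_aa4a89_co.Star
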