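import Pool.Agent.Lib.MP_aa4a89_co.Star.Three

/-!
# Graphs of maximum degree at most `k`: packings of closed neighbourhoods
-/

namespace Pool.Agent.Lib.MP_aa4a89_co.Star

open Finset Classical

variable {V : Type*} {G : SimpleGraph V}

/-- The constant. -/
def Lam (k : ℕ) : ℕ := 6 * k ^ 3 + 3 * k

/-- The union of the balls around the vertices of `T`. -/
noncomputable def bu (G : SimpleGraph V) (W T : Finset V) : Finset V := T.biUnion (nb G W)

theorem mem_bu {W T : Finset V} {x : V} : x ∈ bu G W T ↔ ∃ c ∈ T, x ∈ nb G W c := by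
  simp [bu]

theorem bu_subset (W T : Finset V) : bu G W T ⊆ W := by
  intro x hx
  obtain ⟨c, -, h⟩ := mem_bu.1 hx
  exact nb_subset _ _ h

/-- Adjacent balls. -/
def AdjB (G : SimpleGraph V) (W : Finset V) (c d : V) : Prop :=
  c ≠ d ∧ ∃ x ∈ nb G W c, ∃ y ∈ nb G W d, G.Adj x y

theorem AdjB.symm {W : Finset V} {c d : V} (h : AdjB G W c d) : AdjB G W d c := by
  obtain ⟨h1, x, hx, y, hy, h2⟩ := h
  exact ⟨h1.symm, y, hy, x, hx, h2.symm⟩

/-- Packing data. -/
structure Pack (G : SimpleGraph V) (k : ℕ) (W P L : Finset V) : Prop where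
  sub : P ⊆ W
  full : ∀ c ∈ P, (nb G W c).card = k + 1
  disj : ∀ c ∈ P, ∀ d ∈ P, c ≠ d → Disjoint (nb G W c) (nb G W d)
  left : L = W \ bu G W P
  isol : S G k L 0

theorem exists_pack {k : ℕ} {W : Finset V} (hΔ : ∀ x ∈ W, (nb G W x).card ≤ k + 1) :
    ∃ P L, Pack G k W P L := by
  let F : Finset (Finset V) := W.powerset.filter fun P =>
    (∀ c ∈ P, (nb G W c).card = k + 1) ∧
      ∀ c ∈ P, ∀ d ∈ P, c ≠ d → Disjoint (nb G W c) (nb G W d)
  have hF : F.Nonempty := ⟨∅, by simp [F]⟩
  obtain ⟨P, hP, hmax⟩ := F.exists_max_image card hF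
  simp only [F, mem_filter, mem_powerset] at hP hmax
  refine ⟨P, W \ bu G W P, hP.1, hP.2.1, hP.2.2, rfl, ∅, by simp, by simp, ?_⟩
  intro x hx
  have hxL : x ∈ W \ bu G W P := rest_subset _ _ hx
  rw [mem_sdiff] at hxL
  by_contra hcon
  push Not at hcon
  have h0 : rest G (W \ bu G W P) ∅ = W \ bu G W P := by
    ext y
    simp [mem_rest]
  rw [h0] at hcon
  have h1 : nb G (W \ bu G W P) x = nb G W x := by
    apply eq_of_subset_of_card_le (nb_mono sdiff_subset x)
    have := hΔ x hxL.1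
    omega
  have h2 : ∀ c ∈ P, Disjoint (nb G W x) (nb G W c) := by
    intro c hc
    rw [Finset.disjoint_left]
    intro y hy hyc
    rw [← h1, mem_nb, mem_sdiff] at hy
    exact hy.1.2 (mem_bu.2 ⟨c, hc, hyc⟩)
  have hxP : x ∉ P := by
    intro hxP
    exact hxL.2 (mem_bu.2 ⟨x, hxP, self_mem_nb hxL.1⟩)
  have h3 := hmax (insert x P) (by
    refine ⟨insert_subset hxL.1 hP.1, ?_, ?_⟩
    · intro c hc
      rcases mem_insert.1 hc with rfl | hc
      · have := hΔ c hxL.1
        rw [h1] at hcon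
        omega
      · exact hP.2.1 c hc
    · intro c hc d hd hne
      rcases mem_insert.1 hc with rfl | hc'
      · rcases mem_insert.1 hd with rfl | hd'
        · exact absurd rfl hne
        · exact h2 d hd'
      · rcases mem_insert.1 hd with rfl | hd'
        · exact (h2 c hc').symm
        · exact hP.2.2 c hc' d hd' hne)
  rw [card_insert_of_notMem hxP] at h3
  omega

namespace Pack

variable {k : ℕ} {W P L : Finset V} (Q : Pack G k W P L)
include Q

theorem card_bu {T : Finset V} (hT : T ⊆ P) : (bu G W T).card = T.card * (k + 1) := by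
  unfold bu
  rw [card_biUnion]
  · rw [sum_congr rfl fun c hc => Q.full c (hT hc)]
    simp
  · intro c hc d hd hne
    exact Q.disj c (hT hc) d (hT hd) hne

theorem card_eq : W.card = P.card * (k + 1) + L.card := by
  rw [Q.left, card_sdiff_of_subset (bu_subset W P), Q.card_bu subset_rfl]
  have := card_le_card (bu_subset (G := G) W P)
  rw [Q.card_bu subset_rfl] at this
  omega

theorem ball_unique {c d x : V} (hc : c ∈ P) (hd : d ∈ P) (h1 : x ∈ nb G W c)
    (h2 : x ∈ nb G W d) : c = d := by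
  by_contra hne
  exact (Finset.disjoint_left.1 (Q.disj c hc d hd hne)) h1 h2

/-- A ball has at most `k²` adjacent balls. -/
theorem card_adjB (hΔ : ∀ x ∈ W, (nb G W x).card ≤ k + 1) {c : V} (hc : c ∈ P) :
    (P.filter fun d => AdjB G W d c).card ≤ k ^ 2 := by
  have h1 : ∀ d ∈ P.filter fun d => AdjB G W d c, ∃ y, y ∈ nb G W d ∧
      y ∈ ((nb G W c).erase c).biUnion fun x => (nb G W x).erase x := by
    intro d hd
    rw [mem_filter] at hd
    obtain ⟨hd, hne, y, hy, x, hx, hyx⟩ := hd
    refine ⟨y, hy, mem_biUnion.2 ⟨x, mem_erase.2 ⟨?_, hx⟩, mem_erase.2 ⟨hyx.ne, ?_⟩⟩⟩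
    · rintro rfl
      refine hne (Q.ball_unique hd hc hy (mem_nb.2 ⟨nb_subset _ _ hy, Or.inr hyx.symm⟩))
    · exact mem_nb.2 ⟨nb_subset _ _ hy, Or.inr hyx.symm⟩
  choose! f hf1 hf2 using h1
  calc (P.filter fun d => AdjB G W d c).card
      ≤ (((nb G W c).erase c).biUnion fun x => (nb G W x).erase x).card := by
        apply card_le_card_of_injOn f
        · intro d hd
          exact hf2 d hd
        · intro d hd d' hd' heq
          have a := hf1 d hd
          have b := hf1 d' hd'
          rw [← heq] at b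
          exact Q.ball_unique (mem_filter.1 hd).1 (mem_filter.1 hd').1 a b
    _ ≤ ∑ x ∈ (nb G W c).erase c, ((nb G W x).erase x).card := card_biUnion_le
    _ ≤ ∑ x ∈ (nb G W c).erase c, k := by
        refine sum_le_sum fun x hx => ?_
        have hxW : x ∈ W := nb_subset _ _ (mem_of_mem_erase hx)
        rw [card_erase_of_mem (self_mem_nb hxW)]
        have := hΔ x hxW
        omega
    _ = k ^ 2 := by
        rw [sum_const, card_erase_of_mem (self_mem_nb (Q.sub hc)), Q.full c hc, smul_eq_mul]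
        simp [pow_two]

/-- At most `k |L|` balls are adjacent to `L`. -/
theorem card_adjL (hΔ : ∀ x ∈ W, (nb G W x).card ≤ k + 1) :
    (P.filter fun d => ∃ x ∈ nb G W d, ∃ y ∈ L, G.Adj x y).card ≤ k * L.card := by
  have hLW : L ⊆ W := by
    rw [Q.left]
    exact sdiff_subset
  have h1 : ∀ d ∈ P.filter fun d => ∃ x ∈ nb G W d, ∃ y ∈ L, G.Adj x y, ∃ y, y ∈ nb G W d ∧
      y ∈ L.biUnion fun x => (nb G W x).erase x := by
    intro d hd
    rw [mem_filter] at hd
    obtain ⟨hd, y, hy, x, hx, hyx⟩ := hd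
    exact ⟨y, hy, mem_biUnion.2 ⟨x, hx, mem_erase.2 ⟨hyx.ne,
      mem_nb.2 ⟨nb_subset _ _ hy, Or.inr hyx.symm⟩⟩⟩⟩
  choose! f hf1 hf2 using h1
  calc (P.filter fun d => ∃ x ∈ nb G W d, ∃ y ∈ L, G.Adj x y).card
      ≤ (L.biUnion fun x => (nb G W x).erase x).card := by
        apply card_le_card_of_injOn f
        · intro d hd
          exact hf2 d hd
        · intro d hd d' hd' heq
          have a := hf1 d hd
          have b := hf1 d' hd'
          rw [← heq] at b
          exact Q.ball_unique (mem_filter.1 hd).1 (mem_filter.1 hd').1 a b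
    _ ≤ ∑ x ∈ L, ((nb G W x).erase x).card := card_biUnion_le
    _ ≤ ∑ x ∈ L, k := by
        refine sum_le_sum fun x hx => ?_
        rw [card_erase_of_mem (self_mem_nb (hLW hx))]
        have := hΔ x (hLW hx)
        omega
    _ = k * L.card := by
        rw [sum_const, smul_eq_mul, mul_comm]

end Pack

/-- A ball is connected to its centre. -/
theorem conn_three {W : Finset V} {c d e : V} (hc : c ∈ W) (hd : d ∈ W) (he : e ∈ W)
    (h1 : AdjB G W c d) (h2 : AdjB G W c e ∨ AdjB G W d e) :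
    Conn G (bu G W {c, d, e}) := by
  intro X hX hne hXne
  by_contra hcon
  push Not at hcon
  -- `X` contains a whole ball as soon as it meets it
  have ball : ∀ a ∈ ({c, d, e} : Finset V), ∀ x ∈ nb G W a, x ∈ X → ∀ y ∈ nb G W a, y ∈ X := by
    intro a ha x hx hxX
    have haW : a ∈ W := by
      simp only [mem_insert, mem_singleton] at ha
      rcases ha with rfl | rfl | rfl <;> assumption
    have haX : a ∈ X := by
      by_contra haX
      have h := hcon x hxX a (mem_sdiff.2 ⟨mem_bu.2 ⟨a, ha, self_mem_nb haW⟩, haX⟩)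
      rcases (mem_nb.1 hx).2 with h' | h'
      · exact haX (h' ▸ hxX)
      · exact h h'.symm
    intro y hy
    by_contra hyX
    have h := hcon a haX y (mem_sdiff.2 ⟨mem_bu.2 ⟨a, ha, hy⟩, hyX⟩)
    rcases (mem_nb.1 hy).2 with h' | h'
    · exact hyX (h' ▸ haX)
    · exact h h'
  have step : ∀ a ∈ ({c, d, e} : Finset V), ∀ b ∈ ({c, d, e} : Finset V), AdjB G W a b →
      (∀ y ∈ nb G W a, y ∈ X) → ∀ y ∈ nb G W b, y ∈ X := by
    intro a ha b hb hab h
    obtain ⟨-, x, hx, y, hy, hxy⟩ := hab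
    have hyX : y ∈ X := by
      by_contra hyX
      exact hcon x (h x hx) y (mem_sdiff.2 ⟨mem_bu.2 ⟨b, hb, hy⟩, hyX⟩) hxy
    exact ball b hb y hy hyX
  have mc : c ∈ ({c, d, e} : Finset V) := by simp
  have md : d ∈ ({c, d, e} : Finset V) := by simp
  have me : e ∈ ({c, d, e} : Finset V) := by simp
  have all : (∀ y ∈ nb G W c, y ∈ X) → X = bu G W {c, d, e} := by
    intro h
    have hd' := step c mc d md h1 h
    have he' : ∀ y ∈ nb G W e, y ∈ X := by
      rcases h2 with h2 | h2
      · exact step c mc e me h2 h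
      · exact step d md e me h2 hd'
    refine subset_antisymm hX ?_
    intro y hy
    obtain ⟨a, ha, hya⟩ := mem_bu.1 hy
    simp only [mem_insert, mem_singleton] at ha
    rcases ha with rfl | rfl | rfl
    · exact h y hya
    · exact hd' y hya
    · exact he' y hya
  obtain ⟨x, hx⟩ := hne
  obtain ⟨a, ha, hxa⟩ := mem_bu.1 (hX hx)
  have hba := ball a ha x hxa hx
  simp only [mem_insert, mem_singleton] at ha
  rcases ha with rfl | rfl | rfl
  · exact hXne (all hba)
  · exact hXne (all (step _ md _ mc h1.symm hba))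
  · rcases h2 with h2 | h2
    · exact hXne (all (step _ me _ mc h2.symm hba))
    · exact hXne (all (step _ md _ mc h1.symm (step _ me _ md h2.symm hba)))

/-- The bound for graphs of maximum degree at most `k`. -/
theorem packing {k : ℕ} (hk : 1 ≤ k) {W : Finset V} (hc : Conn G W)
    (hΔ : ∀ x ∈ W, (nb G W x).card ≤ k + 1) (h1 : W.card ≠ k + 1) (h2 : W.card ≠ 2 * (k + 1)) :
    ∃ m, S G k W m ∧ (Lam k * (k + 1) + 1) * m ≤ Lam k * W.card := by
  obtain ⟨P, L, Q⟩ := exists_pack hΔ
  have hLW : L ⊆ W := by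
    rw [Q.left]
    exact sdiff_subset
  have hcase : ∀ y ∈ W, y ∈ L ∨ ∃ c ∈ P, y ∈ nb G W c := by
    intro y hy
    by_cases h : y ∈ bu G W P
    · exact Or.inr (mem_bu.1 h)
    · left
      rw [Q.left]
      exact mem_sdiff.2 ⟨hy, h⟩
  have hLP : ∀ y ∈ L, ∀ c ∈ P, y ∉ nb G W c := by
    intro y hy c hc' h
    rw [Q.left, mem_sdiff] at hy
    exact hy.2 (mem_bu.2 ⟨c, hc', h⟩)
  let adjL : V → Prop := fun d => ∃ x ∈ nb G W d, ∃ y ∈ L, G.Adj x y
  -- a maximal family of separated triples
  let good : Finset V → Prop := fun T => T ⊆ P ∧ T.card = 3 ∧ Conn G (bu G W T) ∧ ∀ c ∈ T, ¬ adjL c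
  let F : Finset (Finset (Finset V)) := P.powerset.powerset.filter fun 𝒯 =>
    (∀ T ∈ 𝒯, good T) ∧ ∀ T ∈ 𝒯, ∀ T' ∈ 𝒯, T ≠ T' → ∀ c ∈ T, ∀ d ∈ T', c ≠ d ∧ ¬ AdjB G W c d
  have hF : F.Nonempty := ⟨∅, by simp [F]⟩
  obtain ⟨𝒯, h𝒯, hmax⟩ := F.exists_max_image card hF
  simp only [F, mem_filter, mem_powerset] at h𝒯 hmax
  obtain ⟨h𝒯P, hgood, hsep⟩ := h𝒯
  let U : Finset V := 𝒯.biUnion id
  have hUP : U ⊆ P := by
    intro c hc'
    obtain ⟨T, hT, hcT⟩ := mem_biUnion.1 hc'
    exact (hgood T hT).1 hcT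
  have hUcard : U.card = 3 * 𝒯.card := by
    rw [card_biUnion]
    · have h3 : ∑ u ∈ 𝒯, (id u : Finset V).card = ∑ u ∈ 𝒯, 3 :=
        sum_congr rfl fun T hT => (hgood T hT).2.1
      rw [h3]
      simp [mul_comm]
    · intro T hT T' hT' hne
      change Disjoint T T'
      rw [Finset.disjoint_left]
      intro c hcT hcT'
      exact (hsep T hT T' hT' hne c hcT c hcT').1 rfl
  -- the isolating set
  have hS : S G k W ((P \ U).card + ∑ i ∈ insertNone 𝒯,
      (match i with | none => 0 | some _ => 2)) := by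
    apply glue k (D₀ := P \ U) (sdiff_subset.trans Q.sub) (insertNone 𝒯)
      (fun i => match i with | none => L | some T => bu G W T)
    · intro i hi
      match i with
      | none => exact hLW
      | some T => exact bu_subset _ _
    · intro i hi
      match i, hi with
      | none, _ => exact Q.isol
      | some T, hi =>
        have hT : T ∈ 𝒯 := by simpa using hi
        obtain ⟨g1, g2, g3, g4⟩ := hgood T hT
        exact three g3 (by rw [Q.card_bu g1, g2])
    · intro x hx
      rw [mem_rest] at hx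
      rcases hcase x hx.1 with h | ⟨c, hcP, hxc⟩
      · exact ⟨none, by simp, h⟩
      · by_cases hcU : c ∈ U
        · obtain ⟨T, hT, hcT⟩ := mem_biUnion.1 hcU
          exact ⟨some T, by simpa using hT, mem_bu.2 ⟨c, hcT, hxc⟩⟩
        · exact absurd (mem_nb.1 hxc).2 (hx.2 c (mem_sdiff.2 ⟨hcP, hcU⟩))
    · have sep1 : ∀ T ∈ 𝒯, ∀ x ∈ bu G W T, ∀ y ∈ L, ¬ Rel G x y := by
        intro T hT x hx y hy hxy
        obtain ⟨c, hcT, hxc⟩ := mem_bu.1 hx
        rcases hxy with h | h
        · exact hLP y hy c ((hgood T hT).1 hcT) (h ▸ hxc)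
        · exact (hgood T hT).2.2.2 c hcT ⟨x, hxc, y, hy, h⟩
      intro i hi j hj hne x _ y _ hxi hyj hxy
      match i, j, hi, hj, hne, hxi, hyj with
      | none, none, _, _, hne, _, _ => exact hne rfl
      | none, some T, _, hj, _, hxi, hyj =>
        exact sep1 T (by simpa using hj) y hyj x hxi hxy.symm
      | some T, none, hi, _, _, hxi, hyj =>
        exact sep1 T (by simpa using hi) x hxi y hyj hxy
      | some T, some T', hi, hj, hne, hxi, hyj =>
        have hT : T ∈ 𝒯 := by simpa using hi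
        have hT' : T' ∈ 𝒯 := by simpa using hj
        have hTT : T ≠ T' := fun h => hne (by rw [h])
        obtain ⟨c, hcT, hxc⟩ := mem_bu.1 hxi
        obtain ⟨d, hdT, hyd⟩ := mem_bu.1 hyj
        obtain ⟨s1, s2⟩ := hsep T hT T' hT' hTT c hcT d hdT
        rcases hxy with h | h
        · exact s1 (Q.ball_unique ((hgood T hT).1 hcT) ((hgood T' hT').1 hdT) hxc (h ▸ hyd))
        · exact s2 ⟨s1, x, hxc, y, hyd, h⟩
  have hsum : ∑ i ∈ insertNone 𝒯, (match i with | none => 0 | some _ => 2) = 2 * 𝒯.card := by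
    rw [sum_insertNone]
    simp [mul_comm]
  rw [hsum] at hS
  have hPU : (P \ U).card + 3 * 𝒯.card = P.card := by
    rw [← hUcard, card_sdiff_of_subset hUP]
    have := card_le_card hUP
    omega
  refine ⟨_, hS, ?_⟩
  -- the size bound
  let A : Finset V := P.filter fun c => adjL c ∨ c ∈ U ∨ ∃ d ∈ U, AdjB G W c d
  have hAcard : A.card ≤ k * L.card + 3 * 𝒯.card * (1 + k ^ 2) := by
    have hA : A ⊆ (P.filter adjL) ∪ (U ∪ U.biUnion fun d => P.filter fun c => AdjB G W c d) := by
      intro c hc'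
      simp only [A, mem_filter] at hc'
      rcases hc' with ⟨hcP, h | h | ⟨d, hd, h⟩⟩
      · exact mem_union_left _ (mem_filter.2 ⟨hcP, h⟩)
      · exact mem_union_right _ (mem_union_left _ h)
      · exact mem_union_right _ (mem_union_right _ (mem_biUnion.2 ⟨d, hd,
          mem_filter.2 ⟨hcP, h⟩⟩))
    have a1 := Q.card_adjL hΔ
    have a2 : (U.biUnion fun d => P.filter fun c => AdjB G W c d).card ≤ U.card * k ^ 2 := by
      refine card_biUnion_le.trans ?_
      rw [← smul_eq_mul, ← sum_const]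
      exact sum_le_sum fun d hd => Q.card_adjB hΔ (hUP hd)
    calc A.card ≤ (P.filter adjL).card +
          (U.card + (U.biUnion fun d => P.filter fun c => AdjB G W c d).card) :=
          (card_le_card hA).trans ((card_union_le _ _).trans
            (add_le_add le_rfl (card_union_le _ _)))
      _ ≤ k * L.card + (U.card + U.card * k ^ 2) := by
          have a1' : (P.filter adjL).card ≤ k * L.card := a1
          omega
      _ = k * L.card + 3 * 𝒯.card * (1 + k ^ 2) := by
          rw [hUcard]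
          ring
  -- no good triple outside `A`
  have notrip : ∀ c ∈ P, c ∉ A → ∀ d ∈ P, d ∉ A → ∀ e ∈ P, e ∉ A → e ≠ c → e ≠ d →
      AdjB G W c d → AdjB G W c e ∨ AdjB G W d e → False := by
    intro c hc1 hc2 d hd1 hd2 e he1 he2 hec hed hcd hce
    have hnA : ∀ x ∈ P, x ∉ A → ¬ adjL x ∧ x ∉ U ∧ ∀ y ∈ U, ¬ AdjB G W x y := by
      intro x hx hxA
      simp only [A, mem_filter] at hxA
      push Not at hxA
      exact hxA hx
    have hT : good {c, d, e} := by
      refine ⟨?_, ?_, conn_three (Q.sub hc1) (Q.sub hd1) (Q.sub he1) hcd hce, ?_⟩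
      · intro x hx
        simp only [mem_insert, mem_singleton] at hx
        rcases hx with rfl | rfl | rfl <;> assumption
      · rw [card_eq_three]
        exact ⟨c, d, e, hcd.1, Ne.symm hec, Ne.symm hed, rfl⟩
      · intro x hx
        simp only [mem_insert, mem_singleton] at hx
        rcases hx with rfl | rfl | rfl
        · exact (hnA _ hc1 hc2).1
        · exact (hnA _ hd1 hd2).1
        · exact (hnA _ he1 he2).1
    have hmem : ∀ x ∈ ({c, d, e} : Finset V), x ∈ P ∧ x ∉ A := by
      intro x hx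
      simp only [mem_insert, mem_singleton] at hx
      rcases hx with rfl | rfl | rfl
      · exact ⟨hc1, hc2⟩
      · exact ⟨hd1, hd2⟩
      · exact ⟨he1, he2⟩
    have hnew : ({c, d, e} : Finset V) ∉ 𝒯 := by
      intro h
      exact (hnA c hc1 hc2).2.1 (mem_biUnion.2 ⟨_, h, by simp⟩)
    have h3 := hmax (insert {c, d, e} 𝒯) (by
      refine ⟨?_, ?_, ?_⟩
      · intro T hT'
        rcases mem_insert.1 hT' with rfl | hT'
        · exact mem_powerset.2 hT.1
        · exact h𝒯P hT'
      · intro T hT'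
        rcases mem_insert.1 hT' with rfl | hT'
        · exact hT
        · exact hgood T hT'
      · have key : ∀ T ∈ 𝒯, ∀ x ∈ ({c, d, e} : Finset V), ∀ y ∈ T, x ≠ y ∧ ¬ AdjB G W x y := by
          intro T hT' x hx y hy
          have hyU : y ∈ U := mem_biUnion.2 ⟨T, hT', hy⟩
          obtain ⟨hxP, hxA⟩ := hmem x hx
          obtain ⟨-, b2, b3⟩ := hnA x hxP hxA
          exact ⟨fun h => b2 (h ▸ hyU), b3 y hyU⟩
        intro T hT1 T' hT2 hne x hx y hy
        rcases mem_insert.1 hT1 with rfl | hT1'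
        · rcases mem_insert.1 hT2 with rfl | hT2'
          · exact absurd rfl hne
          · exact key T' hT2' x hx y hy
        · rcases mem_insert.1 hT2 with rfl | hT2'
          · obtain ⟨b1, b2⟩ := key T hT1' y hy x hx
            exact ⟨b1.symm, fun h => b2 h.symm⟩
          · exact hsep T hT1' T' hT2' hne x hx y hy)
    rw [card_insert_of_notMem hnew] at h3
    omega
  -- every ball outside `A` is near `A`
  have near : ∀ c ∈ P, c ∉ A → (∃ a ∈ A, AdjB G W c a) ∨
      ∃ d ∈ P, d ∉ A ∧ AdjB G W c d ∧ ∃ a ∈ A, AdjB G W d a := by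
    intro c hcP hcA
    have hnL : ∀ x ∈ P, x ∉ A → ¬ adjL x := by
      intro x hx hxA h
      exact hxA (mem_filter.2 ⟨hx, Or.inl h⟩)
    obtain ⟨x, hx, y, hy, hxy⟩ := hc (nb G W c) (nb_subset _ _) ⟨c, self_mem_nb (Q.sub hcP)⟩ (by
      intro heq
      have := congrArg card heq
      rw [Q.full c hcP] at this
      exact h1 this.symm)
    rw [mem_sdiff] at hy
    rcases hcase y hy.1 with hyL | ⟨d, hdP, hyd⟩
    · exact absurd ⟨x, hx, y, hyL, hxy⟩ (hnL c hcP hcA)
    have hcd : AdjB G W c d := ⟨fun h => hy.2 (h ▸ hyd), x, hx, y, hyd, hxy⟩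
    by_cases hdA : d ∈ A
    · exact Or.inl ⟨d, hdA, hcd⟩
    have hcard2 : (bu G W {c, d}).card = 2 * (k + 1) := by
      rw [Q.card_bu (by
        intro z hz
        simp only [mem_insert, mem_singleton] at hz
        rcases hz with rfl | rfl <;> assumption), card_pair hcd.1]
    obtain ⟨x', hx', y', hy', hxy'⟩ := hc (bu G W {c, d}) (bu_subset _ _)
      ⟨c, mem_bu.2 ⟨c, by simp, self_mem_nb (Q.sub hcP)⟩⟩ (by
      intro heq
      have := congrArg card heq
      rw [hcard2] at this
      exact h2 this.symm)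
    rw [mem_sdiff] at hy'
    obtain ⟨b, hb, hxb⟩ := mem_bu.1 hx'
    have hb' : b = c ∨ b = d := by simpa using hb
    have hbP : b ∈ P ∧ b ∉ A := by
      rcases hb' with rfl | rfl
      · exact ⟨hcP, hcA⟩
      · exact ⟨hdP, hdA⟩
    rcases hcase y' hy'.1 with hyL | ⟨e, heP, hye⟩
    · exact absurd ⟨x', hxb, y', hyL, hxy'⟩ (hnL b hbP.1 hbP.2)
    have hec : e ≠ c := fun h => hy'.2 (mem_bu.2 ⟨c, by simp, h ▸ hye⟩)
    have hed : e ≠ d := fun h => hy'.2 (mem_bu.2 ⟨d, by simp, h ▸ hye⟩)
    have hbe : AdjB G W b e := by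
      refine ⟨?_, x', hxb, y', hye, hxy'⟩
      rcases hb' with rfl | rfl
      · exact hec.symm
      · exact hed.symm
    by_cases heA : e ∈ A
    · rcases hb' with rfl | rfl
      · exact Or.inl ⟨e, heA, hbe⟩
      · exact Or.inr ⟨b, hdP, hdA, hcd, e, heA, hbe⟩
    · exfalso
      refine notrip c hcP hcA d hdP hdA e heP heA hec hed hcd ?_
      rcases hb' with rfl | rfl
      · exact Or.inl hbe
      · exact Or.inr hbe
  have hPA : (P \ A).card ≤ 2 * k ^ 2 * A.card := by
    let N : V → Finset V := fun a => (P \ A).filter fun d => AdjB G W d a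
    have hN : ∀ a ∈ A, (N a).card ≤ k ^ 2 := by
      intro a ha
      refine (card_le_card ?_).trans (Q.card_adjB hΔ (mem_of_mem_filter a ha))
      intro d hd
      simp only [N, mem_filter, mem_sdiff] at hd ⊢
      exact ⟨hd.1.1, hd.2⟩
    have hM : ∀ d ∈ P \ A, ((P \ A).filter fun c => AdjB G W c d).card ≤ 1 := by
      intro d hd
      rw [card_le_one]
      intro c hc' e he
      rw [mem_filter, mem_sdiff] at hc' he
      rw [mem_sdiff] at hd
      by_contra hne
      exact notrip c hc'.1.1 hc'.1.2 d hd.1 hd.2 e he.1.1 he.1.2 (Ne.symm hne) he.2.1 hc'.2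
        (Or.inr he.2.symm)
    have hsub : P \ A ⊆ A.biUnion fun a => N a ∪ (N a).biUnion fun d =>
        (P \ A).filter fun c => AdjB G W c d := by
      intro c hc'
      have hc'' := mem_sdiff.1 hc'
      rcases near c hc''.1 hc''.2 with ⟨a, ha, hca⟩ | ⟨d, hdP, hdA, hcd, a, ha, hda⟩
      · exact mem_biUnion.2 ⟨a, ha, mem_union_left _ (mem_filter.2 ⟨hc', hca⟩)⟩
      · exact mem_biUnion.2 ⟨a, ha, mem_union_right _ (mem_biUnion.2 ⟨d,
          mem_filter.2 ⟨mem_sdiff.2 ⟨hdP, hdA⟩, hda⟩, mem_filter.2 ⟨hc', hcd⟩⟩)⟩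
    calc (P \ A).card ≤ ∑ a ∈ A, (N a ∪ (N a).biUnion fun d =>
          (P \ A).filter fun c => AdjB G W c d).card := (card_le_card hsub).trans card_biUnion_le
      _ ≤ ∑ a ∈ A, 2 * k ^ 2 := by
          refine sum_le_sum fun a ha => ?_
          have b1 := hN a ha
          have b2 : ((N a).biUnion fun d => (P \ A).filter fun c => AdjB G W c d).card
              ≤ (N a).card := by
            refine card_biUnion_le.trans ?_
            rw [card_eq_sum_ones]
            exact sum_le_sum fun d hd => hM d (mem_of_mem_filter d hd)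
          have b3 := card_union_le (N a) ((N a).biUnion fun d =>
            (P \ A).filter fun c => AdjB G W c d)
          omega
      _ = 2 * k ^ 2 * A.card := by
          rw [sum_const, smul_eq_mul, mul_comm]
  have hAP : A ⊆ P := filter_subset _ _
  have hPcard : P.card ≤ (1 + 2 * k ^ 2) * (k * L.card + 3 * 𝒯.card * (1 + k ^ 2)) := by
    have b1 : P.card = A.card + (P \ A).card := by
      rw [card_sdiff_of_subset hAP]
      have := card_le_card hAP
      omega
    calc P.card ≤ A.card + 2 * k ^ 2 * A.card := by omega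
      _ = (1 + 2 * k ^ 2) * A.card := by ring
      _ ≤ _ := Nat.mul_le_mul_left _ hAcard
  rw [Q.card_eq]
  have hp3 : (P \ U).card + 2 * 𝒯.card + 𝒯.card = P.card := by omega
  generalize (P \ U).card + 2 * 𝒯.card = q at hp3 ⊢
  generalize 𝒯.card = τ at *
  generalize L.card = l at *
  generalize P.card = p at *
  -- `(Λ (k + 1) + 1) (p - τ) ≤ Λ (p (k + 1) + l)`
  have key : p ≤ Lam k * l + (Lam k * (k + 1) + 1) * τ := by
    refine hPcard.trans ?_
    unfold Lam
    obtain ⟨j, rfl⟩ : ∃ j, k = j + 1 := ⟨k - 1, by omega⟩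
    have e : (6 * (j + 1) ^ 3 + 3 * (j + 1)) * l +
        ((6 * (j + 1) ^ 3 + 3 * (j + 1)) * (j + 1 + 1) + 1) * τ =
        (1 + 2 * (j + 1) ^ 2) * ((j + 1) * l + 3 * τ * (1 + (j + 1) ^ 2)) +
        (2 * (j + 1) * (1 + 2 * (j + 1) ^ 2) * l + (3 * j * (1 + 2 * (j + 1) ^ 2) + 1) * τ) := by
      ring
    rw [e]
    exact Nat.le_add_right _ _
  subst hp3
  nlinarith [key]

end Pool.Agent.Lib.MP_aa4a89_co.Star
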