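import Pool.Agent.Lib.MP_aa4a89_co.Star.Basic
import Pool.Agent.Lib.MP_aa4a89_co.Star.Core

/-!
# Connected graphs with `3 (k + 1)` vertices have isolation number at most two
-/

namespace Pool.Agent.Lib.MP_aa4a89_co.Star

open Finset Classical

variable {V : Type*} {G : SimpleGraph V}

/-- If `G[W]` cannot be isolated by `m` vertices, then every set of at most `m` vertices leaves a
big closed neighbourhood. -/
theorem exists_of_not_S {k : ℕ} {W : Finset V} {m : ℕ} (h : ¬ S G k W m) {D : Finset V}
    (hD : D ⊆ W) (hm : D.card ≤ m) :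
    ∃ z ∈ rest G W D, k + 1 ≤ (nb G (rest G W D) z).card := by
  by_contra hcon
  push Not at hcon
  exact h ⟨D, hD, hm, fun x hx => by have := hcon x hx; omega⟩

theorem card_nb_le_of_not_S {k : ℕ} {W : Finset V} {m : ℕ} (h : ¬ S G k W m) {x : V}
    (hx : x ∈ W) : (nb G W x).card + m * (k + 1) ≤ W.card := by
  by_contra hcon
  push Not at hcon
  rcases Nat.eq_zero_or_pos m with rfl | hm
  · have := card_le_card (nb_subset (G := G) W x)
    omega
  · apply h
    have h1 := S_insert hx (borg (G := G) k (W \ nb G W x))
    refine h1.mono ?_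
    have h2 : (W \ nb G W x).card = W.card - (nb G W x).card :=
      card_sdiff_of_subset (nb_subset W x)
    have h3 : (W \ nb G W x).card / (k + 1) < m := by
      rw [Nat.div_lt_iff_lt_mul (by omega), h2]
      have := card_le_card (nb_subset (G := G) W x)
      omega
    omega

theorem three {k : ℕ} {W : Finset V} (hc : Conn G W) (hW : W.card = 3 * (k + 1)) :
    S G k W 2 := by
  by_contra h
  have hΔ : ∀ x ∈ W, (nb G W x).card ≤ k + 1 := by
    intro x hx
    have := card_nb_le_of_not_S h hx
    omega
  let R : W → W → Prop := fun x y => Rel G x y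
  let full : W → Prop := fun x => (nb G W x).card = k + 1
  have hfar : ∀ x y : W, Far R x y ↔ Disjoint (nb G W x) (nb G W y) := by
    intro x y
    rw [Finset.disjoint_left]
    constructor
    · intro hf p hp hp'
      rw [mem_nb] at hp hp'
      exact hf ⟨p, hp.1⟩ hp.2 hp'.2
    · intro hf p hp hp'
      exact hf (mem_nb.2 ⟨p.2, hp⟩) (mem_nb.2 ⟨p.2, hp'⟩)
  have P : Perf R full := by
    refine ⟨fun x => Rel.refl _, fun x y h => Rel.symm h, ?_, ?_, ?_⟩
    · intro x y
      obtain ⟨z, hz, hzk⟩ := exists_of_not_S h (D := {x.1, y.1})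
        (by intro a ha; simp only [mem_insert, mem_singleton] at ha; rcases ha with rfl | rfl
            · exact x.2
            · exact y.2) (card_le_two)
      have hzW : z ∈ W := rest_subset _ _ hz
      have h1 : nb G (rest G W {x.1, y.1}) z = nb G W z := by
        apply eq_of_subset_of_card_le (nb_mono (rest_subset _ _) z)
        have := hΔ z hzW
        omega
      refine ⟨⟨z, hzW⟩, ?_, ?_, ?_⟩
      · have := hΔ z hzW
        have h2 := congrArg card h1
        change (nb G W z).card = k + 1
        omega
      · intro p hp hp'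
        have h3 : p.1 ∈ nb G W z := mem_nb.2 ⟨p.2, hp⟩
        rw [← h1, mem_nb, mem_rest] at h3
        exact h3.1.2 x.1 (by simp) hp'
      · intro p hp hp'
        have h3 : p.1 ∈ nb G W z := mem_nb.2 ⟨p.2, hp⟩
        rw [← h1, mem_nb, mem_rest] at h3
        exact h3.1.2 y.1 (by simp) hp'
    · intro x y z hx hy hz hxy hxz hyz p
      rw [hfar] at hxy hxz hyz
      have h1 : (nb G W x ∪ nb G W y ∪ nb G W z) = W := by
        apply eq_of_subset_of_card_le
        · exact union_subset (union_subset (nb_subset _ _) (nb_subset _ _)) (nb_subset _ _)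
        · rw [card_union_of_disjoint (disjoint_union_left.2 ⟨hxz, hyz⟩),
            card_union_of_disjoint hxy]
          have a : (nb G W x).card = k + 1 := hx
          have b : (nb G W y).card = k + 1 := hy
          have c : (nb G W z).card = k + 1 := hz
          omega
      have hp : p.1 ∈ nb G W x ∪ nb G W y ∪ nb G W z := h1.symm ▸ p.2
      simp only [mem_union, mem_nb] at hp
      change Rel G x p ∨ Rel G y p ∨ Rel G z p
      tauto
    · intro x y hx hy hxy p hp
      have h1 : nb G W x ⊆ nb G W y := by
        intro q hq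
        rw [mem_nb] at hq ⊢
        exact ⟨hq.1, hxy ⟨q, hq.1⟩ hq.2⟩
      have h2 : nb G W x = nb G W y := by
        apply eq_of_subset_of_card_le h1
        have a : (nb G W x).card = k + 1 := hx
        have b : (nb G W y).card = k + 1 := hy
        omega
      have h3 : p.1 ∈ nb G W y := mem_nb.2 ⟨p.2, hp⟩
      rw [← h2, mem_nb] at h3
      exact h3.2
  have hne : W.Nonempty := by
    rw [← card_pos]
    omega
  have : Nonempty W := hne.coe_sort
  refine P.core ?_
  intro z hz
  have hzk : (nb G W z).card = k + 1 := hz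
  obtain ⟨x, hx, y, hy, hxy⟩ := hc (nb G W z) (nb_subset _ _) ⟨z, self_mem_nb z.2⟩ (by
    intro heq
    have := congrArg card heq
    omega)
  rw [mem_sdiff, mem_nb] at hy
  rw [mem_nb] at hx
  refine ⟨⟨y, hy.1⟩, fun h' => hy.2 ⟨hy.1, h'⟩, fun h' => ?_⟩
  exact h' ⟨x, hx.1⟩ hx.2 (Or.inr hxy.symm)

end Pool.Agent.Lib.MP_aa4a89_co.Star
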